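import Mathlib
import Pool.Agent.Q160.GK8

set_option autoImplicit false

/-!
# The uniform prime `k`-tuplets conjecture for a growing number of forms with given leading coefficients
-/

namespace Pool.Agent.Results.MP_746f10_nt.GrowingNumberOfForms

open Finset

variable {k : ℕ}

/-- the linear forms `a i * x + b i` are distinct and form an admissible set in the sense of the problem -/
def AdmissibleForms (a b : Fin k → ℕ) : Prop :=
  (∀ i, 1 ≤ b i ∧ b i < a i) ∧ (∀ i j, i ≠ j → ¬ (a i = a j ∧ b i = b j)) ∧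
  ∀ p : ℕ, p.Prime → ∃ n : ℕ, ∀ i, ¬ p ∣ a i * n + b i

open Classical in
/-- all `b` for which the forms `a i * x + b i` form an admissible set -/
noncomputable def systems (a : Fin k → ℕ) : Finset (Fin k → ℕ) :=
  (Fintype.piFinset (fun i => range (a i))).filter (AdmissibleForms a)

open Classical in
/-- the number of `n` with `y < n ≤ 2 y` at which all the forms are prime -/
noncomputable def primeArguments (a b : Fin k → ℕ) (y : ℕ) : ℕ :=
  ((Ioc y (2 * y)).filter (fun n => ∀ i, (a i * n + b i).Prime)).card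

/-- the product of `(1 - 1 / p)⁻¹` over the prime divisors `p > k` of `m` -/
noncomputable def g (k m : ℕ) : ℝ := ∏ p ∈ m.primeFactors.filter (fun p => k < p), (1 - (p : ℝ)⁻¹)⁻¹

/-- `log m / (log (k + 2) g(k, m))` -/
noncomputable def W (k m : ℕ) : ℝ := Real.log m / (Real.log (k + 2) * g k m)

open Pool.Agent.Q160.GK (Adm gg genD gen_upD)

open Classical in
lemma systems_eq (a : Fin k → ℕ) (ha : ∀ i, 2 ≤ a i) : systems a =
    (Fintype.piFinset (fun i => Ioc 0 (0 + a i))).filter (fun b => Adm a b ∧ Pool.Agent.Q160.GK.Dist a b) := by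
  ext b
  unfold systems
  simp only [mem_filter, Fintype.mem_piFinset]
  unfold AdmissibleForms Adm Pool.Agent.Q160.GK.Dist
  constructor
  · rintro ⟨h1, h2, h3, h4⟩
    refine ⟨fun i => ?_, h4, h3⟩
    rw [mem_Ioc]
    have := h2 i
    omega
  · rintro ⟨h1, h2, h3⟩
    have h5 : ∀ i, 1 ≤ b i ∧ b i < a i := by
      intro i
      have h6 := h1 i
      rw [mem_Ioc] at h6
      refine ⟨by omega, ?_⟩
      by_contra hcon
      have h7 : b i = a i := by omega
      obtain ⟨p, hp, hpa⟩ := Nat.exists_prime_and_dvd (show a i ≠ 1 by have := ha i; omega)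
      obtain ⟨n, hn⟩ := h2 p hp
      apply hn i
      rw [h7]
      exact dvd_add (Dvd.dvd.mul_right hpa _) hpa
    refine ⟨fun i => ?_, h5, h3, h2⟩
    rw [mem_range]
    exact (h5 i).2

open Classical in
theorem result : ∃ C : ℝ, 1 ≤ C ∧ ∀ k : ℕ, 1 ≤ k → ∀ a : Fin k → ℕ, (∀ i, C * k ≤ Real.log (a i)) →
    (∀ y : ℕ, k ≤ y → (∀ i, (y : ℝ) ^ C ≤ a i) → ∏ i, (C * W k (a i)) ≤ y →
      (C ^ k)⁻¹ * ((systems a).card : ℝ) ≤ (((systems a).filter (fun b =>
        (y : ℝ) * ∏ i, (C * W k (a i))⁻¹ ≤ (primeArguments a b y : ℝ))).card : ℝ)) ∧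
    (∀ N : Finset ℕ, (((systems a).filter (fun b => ∃ n ∈ N, ∀ i, (a i * n + b i).Prime)).card : ℝ) ≤
      N.card * (∏ i, (C / W k (a i))) * ((systems a).card : ℝ)) := by
  obtain ⟨θ, C1, hθ, hθ1, hC1, hgen⟩ := genD
  obtain ⟨C2, hC2, hup⟩ := gen_upD 1
  obtain ⟨s, hs⟩ : ∃ s : ℝ, s = (1 + θ) / 2 := ⟨_, rfl⟩
  have hs1 : s < 1 := by rw [hs]; linarith
  have hsθ : θ < s := by rw [hs]; linarith
  obtain ⟨C, hC⟩ : ∃ C : ℝ, C = max (max C1 C2) (max (θ / (s - θ)) (2 / (1 - s))) := ⟨_, rfl⟩
  have hCa : C1 ≤ C := by rw [hC]; exact le_trans (le_max_left _ _) (le_max_left _ _)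
  have hCb : C2 ≤ C := by rw [hC]; exact le_trans (le_max_right _ _) (le_max_left _ _)
  have hCc : θ / (s - θ) ≤ C := by rw [hC]; exact le_trans (le_max_left _ _) (le_max_right _ _)
  have hCd : 2 / (1 - s) ≤ C := by rw [hC]; exact le_trans (le_max_right _ _) (le_max_right _ _)
  have hC0 : 1 ≤ C := hC1.trans hCa
  refine ⟨C, hC0, fun k hk a hka => ?_⟩
  have hkr : (1 : ℝ) ≤ k := by exact_mod_cast hk
  have hapos : ∀ i, (0 : ℝ) < a i := by
    intro i
    by_contra hcon
    push Not at hcon
    have h7 : (a i : ℝ) = 0 := le_antisymm hcon (Nat.cast_nonneg _)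
    have h8 := hka i
    rw [h7, Real.log_zero] at h8
    nlinarith
  have hlogC : ∀ i, C ≤ Real.log (a i) := fun i => by
    have := hka i
    nlinarith
  have ha2 : ∀ i, 2 ≤ a i := by
    intro i
    by_contra hcon
    push Not at hcon
    have h1 : (a i : ℝ) ≤ 1 := by exact_mod_cast (by omega : a i ≤ 1)
    have h2 := Real.log_nonpos (hapos i).le h1
    have := hlogC i
    linarith
  have hWd : ∀ i, W k (a i) = Real.log (a i) / (Real.log (k + 2) * gg k (a i)) := fun i => rfl
  have hlk : 0 < Real.log ((k : ℝ) + 2) := Pool.Agent.Q160.GK.log_two_add k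
  have hW0 : ∀ i, 0 < W k (a i) := fun i => by
    rw [hWd]
    have h1 := hlogC i
    have h2 := Pool.Agent.Q160.GK.one_le_gg k (a i)
    have h3 : 0 < Real.log (a i) := by linarith
    positivity
  constructor
  · intro y hky hya hyW
    have hy0 : (1 : ℝ) ≤ y := by exact_mod_cast hk.trans hky
    have hθi : ∀ i, ((2 * a i * y + 0 + a i : ℕ) : ℝ) ^ θ ≤ a i := by
      intro i
      have h1 : ((2 * a i * y + 0 + a i : ℕ) : ℝ) ≤ 3 * ((a i : ℝ) * y) := by
        push_cast
        have := hapos i
        nlinarith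
      have h2 : (y : ℝ) ≤ (a i : ℝ) ^ (1 / C) := by
        calc (y : ℝ) = ((y : ℝ) ^ C) ^ (1 / C) := by
              rw [← Real.rpow_mul (by positivity), mul_one_div_cancel (by linarith), Real.rpow_one]
          _ ≤ (a i : ℝ) ^ (1 / C) := Real.rpow_le_rpow (by positivity) (hya i) (by positivity)
      have h3 : (3 : ℝ) ≤ (a i : ℝ) ^ (1 - s) := by
        rw [← Real.log_le_log_iff (by norm_num) (Real.rpow_pos_of_pos (hapos i) _), Real.log_rpow (hapos i)]
        have h4 : Real.log 3 ≤ 2 := by
          have := Real.log_le_sub_one_of_pos (show (0 : ℝ) < 3 by norm_num)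
          linarith
        have h5 : 2 ≤ (1 - s) * C := by
          rw [div_le_iff₀ (by linarith)] at hCd
          linarith
        have h6 := hlogC i
        nlinarith
      have h4 : (3 : ℝ) ^ θ ≤ 3 := by
        calc (3 : ℝ) ^ θ ≤ (3 : ℝ) ^ (1 : ℝ) := Real.rpow_le_rpow_of_exponent_le (by norm_num) hθ1.le
          _ = 3 := Real.rpow_one _
      have h5 : (1 : ℝ) ≤ a i := by exact_mod_cast (by have := ha2 i; omega : 1 ≤ a i)
      calc ((2 * a i * y + 0 + a i : ℕ) : ℝ) ^ θ ≤ (3 * ((a i : ℝ) * y)) ^ θ :=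
            Real.rpow_le_rpow (by positivity) h1 hθ.le
        _ = (3 : ℝ) ^ θ * ((a i : ℝ) ^ θ * (y : ℝ) ^ θ) := by
            rw [Real.mul_rpow (by norm_num) (by positivity), Real.mul_rpow (by positivity) (by positivity)]
        _ ≤ (a i : ℝ) ^ (1 - s) * ((a i : ℝ) ^ θ * ((a i : ℝ) ^ (1 / C)) ^ θ) := by
            refine mul_le_mul (h4.trans h3) (mul_le_mul_of_nonneg_left ?_ (by positivity)) (by positivity) (by positivity)
            exact Real.rpow_le_rpow (by positivity) h2 hθ.le
        _ = (a i : ℝ) ^ (1 - s + (θ + 1 / C * θ)) := by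
            rw [← Real.rpow_mul (hapos i).le, ← Real.rpow_add (hapos i), ← Real.rpow_add (hapos i)]
        _ ≤ (a i : ℝ) ^ (1 : ℝ) := by
            refine Real.rpow_le_rpow_of_exponent_le h5 ?_
            have h6 : 1 / C * θ ≤ s - θ := by
              rw [div_le_iff₀ (by linarith)] at hCc
              rw [div_mul_eq_mul_div, one_mul, div_le_iff₀ (by linarith)]
              linarith
            linarith
        _ = a i := Real.rpow_one _
    have hprodle : ∏ i, (C1 * W k (a i)) ≤ ∏ i, (C * W k (a i)) :=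
      prod_le_prod (fun i _ => by have := hW0 i; positivity) fun i _ =>
        mul_le_mul_of_nonneg_right hCa (hW0 i).le
    have h1 := hgen k hk a (fun _ => 0) a y hky (fun i => by have := ha2 i; omega)
      (fun i => le_trans (mul_le_mul_of_nonneg_right hCa (by positivity)) (hka i)) hθi (hprodle.trans hyW)
    rw [← systems_eq a ha2] at h1
    have h2 : (C ^ k)⁻¹ ≤ (C1 ^ k)⁻¹ := inv_anti₀ (by positivity) (pow_le_pow_left₀ (by positivity) hCa k)
    refine (mul_le_mul_of_nonneg_right h2 (by positivity)).trans (h1.trans ?_)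
    have h3 : (Fintype.piFinset (fun i => Ioc 0 (0 + a i))).filter (fun b => (Adm a b ∧ Pool.Agent.Q160.GK.Dist a b) ∧
        (y : ℝ) * ∏ i, (C1 * (Real.log (a i) / (Real.log (k + 2) * gg k (a i))))⁻¹ ≤
          (((Ioc y (2 * y)).filter (fun n => ∀ i, (a i * n + b i).Prime)).card : ℝ)) ⊆
        (systems a).filter (fun b => (y : ℝ) * ∏ i, (C * W k (a i))⁻¹ ≤ (primeArguments a b y : ℝ)) := by
      intro b hb
      rw [mem_filter] at hb
      rw [mem_filter, systems_eq a ha2, mem_filter]
      refine ⟨⟨hb.1, hb.2.1⟩, le_trans ?_ hb.2.2⟩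
      refine mul_le_mul_of_nonneg_left ?_ (by positivity)
      refine prod_le_prod (fun i _ => by have := hW0 i; positivity) fun i _ => ?_
      have := hW0 i
      exact inv_anti₀ (by positivity) (mul_le_mul_of_nonneg_right hCa this.le)
    exact_mod_cast card_le_card h3
  · intro N
    have h1 := hup k hk a (fun _ => 0) a N (fun i => by have := ha2 i; omega) (fun i => by simp)
      (fun i => le_trans (mul_le_mul_of_nonneg_right hCb (by positivity)) (hka i))
    rw [← systems_eq a ha2] at h1
    have h2 : (systems a).filter (fun b => ∃ n ∈ N, ∀ i, (a i * n + b i).Prime) ⊆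
        (Fintype.piFinset (fun i => Ioc 0 (0 + a i))).filter (fun b => ∃ n ∈ N, ∀ i, (a i * n + b i).Prime) := by
      intro b hb
      rw [mem_filter, systems_eq a ha2, mem_filter] at hb
      rw [mem_filter]
      exact ⟨hb.1.1, hb.2⟩
    have h3 : (((systems a).filter (fun b => ∃ n ∈ N, ∀ i, (a i * n + b i).Prime)).card : ℝ) ≤
        (((Fintype.piFinset (fun i => Ioc 0 (0 + a i))).filter (fun b => ∃ n ∈ N, ∀ i, (a i * n + b i).Prime)).card : ℝ) := by
      exact_mod_cast card_le_card h2
    refine h3.trans (h1.trans ?_)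
    refine mul_le_mul_of_nonneg_right (mul_le_mul_of_nonneg_left ?_ (by positivity)) (by positivity)
    refine prod_le_prod (fun i _ => ?_) fun i _ => ?_
    · have := hlogC i
      have := Pool.Agent.Q160.GK.one_le_gg k (a i)
      have : 0 < Real.log (a i) := by linarith
      positivity
    · have h4 := hlogC i
      have h5 := Pool.Agent.Q160.GK.one_le_gg k (a i)
      have h6 : 0 < Real.log (a i) := by linarith
      have h7 : C / W k (a i) = C * ((Real.log (k + 2) * gg k (a i)) / Real.log (a i)) := by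
        rw [hWd]
        field_simp
      rw [h7]
      refine mul_le_mul_of_nonneg_right hCb (by positivity)

end Pool.Agent.Results.MP_746f10_nt.GrowingNumberOfForms
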