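import Pool.Agent.Q106.LF.Fin

/-!
# MP_746f10_nt: the uniform prime k-tuplets conjecture in the sieved models of the primes, with the exact law

The sieved model of level `Q`: a random set `A` which contains the integers `n` coprime to `Q` independently with
probability `(Q / φ(Q)) / log n` (at most `1`), and no others (`IsModel μ (level Q) A`; `Q = 1` is Cramér's model).
Almost surely the statement of the question holds for `A` with every exponent `α > 0`; and the largest least argument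
of the systems of `k` forms with coefficients up to `D` and singular series `s` is asymptotic to
`(2 k / s) (log D)^(k+1)`.
-/

set_option autoImplicit false

namespace Pool.Agent.Results.MP_746f10_nt.LeastArgumentLaw

open Finset MeasureTheory ProbabilityTheory Filter
open scoped Topology
open Pool.Agent.Q120.GM (IsModel level)

/-- A system of `k` forms `a x + b`, `(a, b) ∈ F`, with `1 ≤ b < a`. -/
def System (k : ℕ) (F : Finset (ℕ × ℕ)) : Prop := F.card = k ∧ ∀ f ∈ F, 1 ≤ f.2 ∧ f.2 < f.1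

/-- The leading coefficients (hence all coefficients) are at most `D`. -/
def Below (D : ℕ) (F : Finset (ℕ × ℕ)) : Prop := ∀ f ∈ F, f.1 ≤ D

/-- Admissible with respect to the primes dividing `Q`. -/
def Admissible (Q : ℕ) (F : Finset (ℕ × ℕ)) : Prop :=
  ∀ p : ℕ, p.Prime → p ∣ Q → ∃ n, ∀ f ∈ F, ¬ p ∣ f.1 * n + f.2

/-- All values at `n` are coprime to `Q`. -/
def Good (Q : ℕ) (F : Finset (ℕ × ℕ)) (n : ℕ) : Prop := ∀ f ∈ F, (f.1 * n + f.2).Coprime Q

instance (Q : ℕ) (F : Finset (ℕ × ℕ)) : DecidablePred (Good Q F) := fun n => by unfold Good; infer_instance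

/-- The singular series of level `Q`: the proportion of the classes modulo `Q` which are good, divided by
`(φ(Q) / Q) ^ k`. -/
noncomputable def series (Q : ℕ) (F : Finset (ℕ × ℕ)) : ℝ :=
  (((range Q).filter (Good Q F)).card : ℝ) / Q * ((Q : ℝ) / Nat.totient Q) ^ F.card

/-- All values at `n` are elements of `S`. -/
def Works (S : Set ℕ) (F : Finset (ℕ × ℕ)) (n : ℕ) : Prop := ∀ f ∈ F, f.1 * n + f.2 ∈ S

/-- The least argument of a system. -/
noncomputable def least (S : Set ℕ) (F : Finset (ℕ × ℕ)) : ℕ := sInf {n | Works S F n}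

/-- The largest least argument of the systems of `k` forms with coefficients up to `D` and singular series `s`. -/
noncomputable def worst (S : Set ℕ) (Q k : ℕ) (s : ℝ) (D : ℕ) : ℕ :=
  sSup {m | ∃ F, System k F ∧ Below D F ∧ series Q F = s ∧ m = least S F}

theorem works_iff {S : Set ℕ} {F : Finset (ℕ × ℕ)} {n : ℕ} : Works S F n ↔ ∀ m ∈ Pool.Agent.Q106.LF.vals F n, m ∈ S := by
  constructor
  · intro h m hm
    obtain ⟨f, hf, rfl⟩ := Pool.Agent.Q106.LF.mem_vals.1 hm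
    exact h f hf
  · intro h f hf
    exact h _ (Pool.Agent.Q106.LF.mem_vals.2 ⟨f, hf, rfl⟩)

theorem series_eq (Q : ℕ) (F : Finset (ℕ × ℕ)) : series Q F = Pool.Agent.Q106.LF.singF Q F := rfl

/-- `κ (log t)^(k+1) ≤ C t^α` -/
theorem log_le_pow (k : ℕ) {κ α t : ℝ} (hκ : 0 ≤ κ) (hα : 0 < α) (ht : 1 ≤ t) :
    κ * Real.log t ^ (k + 1) ≤ κ * (((k : ℝ) + 1) / α) ^ (k + 1) * t ^ α := by
  have h0 : 0 ≤ Real.log t := Real.log_nonneg ht
  have h1 := Real.log_le_rpow_div (show 0 ≤ t by linarith) (show 0 < α / ((k : ℝ) + 1) by positivity)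
  have h2 := pow_le_pow_left₀ h0 h1 (k + 1)
  have h3 : (t ^ (α / ((k : ℝ) + 1)) / (α / ((k : ℝ) + 1))) ^ (k + 1) = (((k : ℝ) + 1) / α) ^ (k + 1) * t ^ α := by
    rw [div_pow, ← Real.rpow_natCast (t ^ (α / ((k : ℝ) + 1))) (k + 1), ← Real.rpow_mul (by linarith)]
    have h4 : α / ((k : ℝ) + 1) * ((k + 1 : ℕ) : ℝ) = α := by
      push_cast
      field_simp
    rw [h4, div_eq_mul_inv, ← inv_pow, inv_div, mul_comm]
  rw [h3] at h2
  have h4 := mul_le_mul_of_nonneg_left h2 hκ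
  linarith

/-- **The uniform k-tuplets conjecture in the sieved models, with the exact law.** -/
theorem result (Q : ℕ) (hQ : 1 ≤ Q) :
    (∃ (Ω : Type) (_ : MeasurableSpace Ω) (μ : Measure Ω) (_ : IsProbabilityMeasure μ) (A : Ω → Set ℕ),
      IsModel μ (level Q) A) ∧
    ∀ (Ω : Type) [MeasurableSpace Ω] (μ : Measure Ω) [IsProbabilityMeasure μ] (A : Ω → Set ℕ),
      IsModel μ (level Q) A → ∀ᵐ ω ∂μ, ∀ k : ℕ, 1 ≤ k →
      -- the statement of the question, with every exponent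
      (∀ α : ℝ, 0 < α → ∃ γ : ℝ, 0 < γ ∧ ∀ F, System k F → Admissible Q F →
        ∃ n : ℕ, (n : ℝ) ≤ γ * (∏ f ∈ F, (f.1 : ℝ)) ^ α ∧ Works (A ω) F n) ∧
      -- the upper bound for all systems
      (∀ s κ : ℝ, 0 < s → 2 * k < s * κ → ∀ᶠ D : ℕ in atTop, ∀ F, System k F → Below D F → s ≤ series Q F →
        ∃ n : ℕ, (n : ℝ) < κ * Real.log D ^ (k + 1) ∧ Works (A ω) F n) ∧
      -- the lower bound, in every class of systems modulo `Q`
      (∀ (F₀ : Finset (ℕ × ℕ)) (κ : ℝ), F₀.card = k → 0 < κ → series Q F₀ * κ < 2 * k →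
        ∀ᶠ D : ℕ in atTop, ∃ F, System k F ∧ Below D F ∧ (∀ n, Good Q F n ↔ Good Q F₀ n) ∧ series Q F = series Q F₀ ∧
          ∀ n : ℕ, Works (A ω) F n → κ * Real.log D ^ (k + 1) ≤ n) ∧
      -- the law of the largest least argument
      (∀ F₀ : Finset (ℕ × ℕ), F₀.card = k → Admissible Q F₀ →
        Tendsto (fun D : ℕ => (worst (A ω) Q k (series Q F₀) D : ℝ) / Real.log D ^ (k + 1)) atTop
          (𝓝 (2 * k / series Q F₀))) := by
  refine ⟨⟨ℕ → Bool, inferInstance, Pool.Agent.Q120.GM.prodMeasure (level Q), inferInstance,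
    Pool.Agent.Q120.GM.trueSet, Pool.Agent.Q120.GM.isModel (level Q) (Pool.Agent.Q120.GM.level_nonneg Q)
      (Pool.Agent.Q120.GM.level_le_one Q)⟩, ?_⟩
  intro Ω _ μ _ A hA
  have hQ0 : (0 : ℝ) < Q := by exact_mod_cast hQ
  filter_upwards [Pool.Agent.Q106.LF.all_least hA hQ, Pool.Agent.Q106.LF.all_large hA hQ] with ω hup hlow k hk
  have hk0 : (0 : ℝ) < k := by exact_mod_cast hk
  have PU : ∀ s κ : ℝ, 0 < s → 2 * k < s * κ → ∀ᶠ D : ℕ in atTop, ∀ F, System k F → Below D F → s ≤ series Q F →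
        ∃ n : ℕ, (n : ℝ) < κ * Real.log D ^ (k + 1) ∧ Works (A ω) F n := by
    intro s κ hs hκ
    filter_upwards [hup k hk s κ hs hκ] with D hD F hF hFD hsF
    obtain ⟨n, h1, h2⟩ := hD F hF hFD hsF
    exact ⟨n, h1, works_iff.2 h2⟩
  have PL : ∀ (F₀ : Finset (ℕ × ℕ)) (κ : ℝ), F₀.card = k → 0 < κ → series Q F₀ * κ < 2 * k →
        ∀ᶠ D : ℕ in atTop, ∃ F, System k F ∧ Below D F ∧ (∀ n, Good Q F n ↔ Good Q F₀ n) ∧ series Q F = series Q F₀ ∧
          ∀ n : ℕ, Works (A ω) F n → κ * Real.log D ^ (k + 1) ≤ n := by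
    intro F₀ κ hF₀ hκ hsκ
    filter_upwards [hlow k hk F₀ κ hF₀ hκ hsκ] with D hD
    obtain ⟨F, h1, h2, h3, h4⟩ := hD
    refine ⟨F, h1, h2, h3, ?_, ?_⟩
    · exact Pool.Agent.Q106.LF.singF_congr (h1.1.trans hF₀.symm) h3
    · intro n hn
      by_contra hcon
      push Not at hcon
      obtain ⟨m, hm1, hm2⟩ := h4 n hcon
      exact hm2 (works_iff.1 hn m hm1)
  refine ⟨?_, PU, PL, ?_⟩
  · -- the statement of the question
    intro α hα
    obtain ⟨κ, hκ⟩ : ∃ κ : ℝ, κ = 2 * k * Q + 1 := ⟨_, rfl⟩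
    have hκ0 : 0 < κ := by rw [hκ]; positivity
    obtain ⟨D₁, hD₁⟩ := eventually_atTop.1 (PU (1 / Q) κ (by positivity) (by
      rw [hκ, one_div, mul_add, mul_one]
      have : (Q : ℝ)⁻¹ * (2 * k * Q) = 2 * k := by field_simp
      rw [this]
      have : 0 < (Q : ℝ)⁻¹ := by positivity
      linarith))
    obtain ⟨D₀, hD₀⟩ : ∃ D₀, D₀ = max 1 D₁ := ⟨_, rfl⟩
    have hD0 : (1 : ℝ) ≤ D₀ := by
      have : 1 ≤ D₀ := by rw [hD₀]; exact le_max_left _ _
      exact_mod_cast this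
    refine ⟨κ * (((k : ℝ) + 1) / α) ^ (k + 1) * (D₀ : ℝ) ^ α, by positivity, ?_⟩
    intro F hF hadm
    obtain ⟨P, hP⟩ : ∃ P, P = ∏ f ∈ F, f.1 := ⟨_, rfl⟩
    have hpos : ∀ f ∈ F, 1 ≤ f.1 := fun f hf => by
      have := hF.2 f hf
      omega
    have hP1 : 1 ≤ P := by rw [hP]; exact Finset.one_le_prod' hpos
    have hPf : ∀ f ∈ F, f.1 ≤ P := by
      intro f hf
      rw [hP]
      exact Finset.single_le_prod' (f := fun g : ℕ × ℕ => g.1) hpos hf
    have hs := Pool.Agent.Q106.LF.singF_ge hQ (Pool.Agent.Q106.LF.singF_pos hQ (Pool.Agent.Q106.LF.exists_good hQ hadm))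
    have hDge : D₁ ≤ D₀ * P := by
      calc D₁ ≤ D₀ := by rw [hD₀]; exact le_max_right _ _
        _ ≤ D₀ * P := Nat.le_mul_of_pos_right _ hP1
    have hbel : Below (D₀ * P) F := by
      intro f hf
      calc f.1 ≤ P := hPf f hf
        _ ≤ D₀ * P := Nat.le_mul_of_pos_left _ (by rw [hD₀]; exact lt_of_lt_of_le one_pos (le_max_left _ _))
    obtain ⟨n, hn1, hn2⟩ := hD₁ (D₀ * P) hDge F hF hbel hs
    refine ⟨n, hn1.le.trans ?_, hn2⟩
    have hPr : (1 : ℝ) ≤ P := by exact_mod_cast hP1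
    have h1 := log_le_pow (k := k) (κ := κ) (α := α) (t := ((D₀ * P : ℕ) : ℝ)) hκ0.le hα (by
      push_cast
      nlinarith)
    refine h1.trans (le_of_eq ?_)
    have h2 : (∏ f ∈ F, (f.1 : ℝ)) = P := by rw [hP]; push_cast; rfl
    rw [h2]
    push_cast
    rw [Real.mul_rpow (by linarith) (by linarith)]
    ring
  · -- the law
    intro F₀ hF₀ hadm
    obtain ⟨s, hs⟩ : ∃ s, s = series Q F₀ := ⟨_, rfl⟩
    have hs0 : 0 < s := by
      rw [hs]
      exact Pool.Agent.Q106.LF.singF_pos hQ (Pool.Agent.Q106.LF.exists_good hQ hadm)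
    rw [← hs]
    rw [Metric.tendsto_atTop']
    intro ε hε
    obtain ⟨η, hη⟩ : ∃ η, η = min (ε / 2) (k / s) := ⟨_, rfl⟩
    have hη0 : 0 < η := by rw [hη]; exact lt_min (by linarith) (by positivity)
    have hη1 : η < ε := lt_of_le_of_lt (by rw [hη]; exact min_le_left _ _) (by linarith : ε / 2 < ε)
    have hη2 : η ≤ k / s := by rw [hη]; exact min_le_right _ _
    have hκ2 : 0 < 2 * k / s - η := by
      have : (0 : ℝ) < k / s := by positivity
      have : 2 * (k : ℝ) / s = 2 * (k / s) := by ring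
      linarith
    have h1 := PU s (2 * k / s + η) hs0 (by
      have : s * (2 * k / s + η) = 2 * k + s * η := by field_simp
      rw [this]
      have : 0 < s * η := by positivity
      linarith)
    have h2 := PL F₀ (2 * k / s - η) hF₀ hκ2 (by
      rw [← hs]
      have : s * (2 * k / s - η) = 2 * k - s * η := by field_simp
      rw [this]
      have : 0 < s * η := by positivity
      linarith)
    obtain ⟨N, hN⟩ := eventually_atTop.1 (h1.and (h2.and (Pool.Agent.Q106.UR.log_tendsto.eventually_gt_atTop 0)))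
    refine ⟨N, fun D hD => ?_⟩
    obtain ⟨g1, g2, g3⟩ := hN D hD.le
    obtain ⟨L, hL⟩ : ∃ L, L = Real.log D ^ (k + 1) := ⟨_, rfl⟩
    have hL0 : 0 < L := by rw [hL]; positivity
    rw [← hL] at g1 g2 ⊢
    -- the set
    obtain ⟨W, hW⟩ : ∃ W : Set ℕ, W = {m | ∃ F, System k F ∧ Below D F ∧ series Q F = s ∧ m = least (A ω) F} := ⟨_, rfl⟩
    have hworst : worst (A ω) Q k s D = sSup W := by rw [hW]; rfl
    have hub : ∀ m ∈ W, (m : ℝ) < (2 * k / s + η) * L := by
      intro m hm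
      rw [hW] at hm
      obtain ⟨F, f1, f2, f3, rfl⟩ := hm
      obtain ⟨n, hn1, hn2⟩ := g1 F f1 f2 f3.ge
      have h3 : least (A ω) F ≤ n := Nat.sInf_le hn2
      have h4 : (least (A ω) F : ℝ) ≤ n := by exact_mod_cast h3
      linarith
    have hbdd : BddAbove W := by
      refine ⟨⌈(2 * k / s + η) * L⌉₊, fun m hm => ?_⟩
      have h3 := hub m hm
      have h4 : (m : ℝ) ≤ ⌈(2 * k / s + η) * L⌉₊ := h3.le.trans (Nat.le_ceil _)
      exact_mod_cast h4
    obtain ⟨F, f1, f2, _, f4, f5⟩ := g2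
    have hmem : least (A ω) F ∈ W := by
      rw [hW]
      exact ⟨F, f1, f2, f4.trans hs.symm, rfl⟩
    have hsup : sSup W ∈ W := Nat.sSup_mem ⟨_, hmem⟩ hbdd
    have hu := hub _ hsup
    have hl : (2 * k / s - η) * L ≤ least (A ω) F := by
      obtain ⟨n, hn1, hn2⟩ := g1 F f1 f2 (by rw [f4, ← hs])
      exact f5 _ (Nat.sInf_mem (s := {n | Works (A ω) F n}) ⟨n, hn2⟩)
    have hl2 : (least (A ω) F : ℝ) ≤ ((sSup W : ℕ) : ℝ) := by exact_mod_cast le_csSup hbdd hmem
    rw [hworst, Real.dist_eq, abs_lt]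
    constructor
    · have h3 : 2 * k / s - η ≤ ((sSup W : ℕ) : ℝ) / L := by
        rw [le_div_iff₀ hL0]
        linarith
      linarith
    · have h3 : ((sSup W : ℕ) : ℝ) / L < 2 * k / s + η := by
        rw [div_lt_iff₀ hL0]
        exact hu
      linarith

end Pool.Agent.Results.MP_746f10_nt.LeastArgumentLaw
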