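import Pool.Agent.Q250.NP.Core

/-!
# Uniform almost prime k-tuplets: narrow progressions of arguments with constant numbers of prime factors
-/

set_option autoImplicit false

namespace Pool.Agent.Results.MP_746f10_nt.NarrowProgressions

open Finset Filter
open Pool.Agent.Q253.Thin (SysZ IS VZ_low)
open Pool.Agent.Y843.HS (VV Pr)
open Pool.Agent.Q250.NP

/-- the set of linear forms `a i * x + b i` is admissible in the sense of the problem -/
def Admissible {k : ℕ} (a b : Fin k → ℕ) : Prop :=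
  (∀ i, 1 ≤ b i ∧ b i < a i) ∧ ∀ p : ℕ, p.Prime → ∃ n : ℕ, ∀ i, ¬ p ∣ a i * n + b i

/-- the classes modulo `p` where `p` divides one of the forms -/
def Z {k : ℕ} (a b : Fin k → ℕ) (p : ℕ) : Finset ℕ := (range p).filter (fun n => ∃ i, p ∣ a i * n + b i)

/-- the product of `1 - |Z p| / p` over the primes `p ≤ X` -/
noncomputable def dens {k : ℕ} (a b : Fin k → ℕ) (X : ℕ) : ℝ :=
  ∏ p ∈ (Ioc 0 X).filter Nat.Prime, (1 - ((Z a b p).card : ℝ) / p)

open Classical in
/-- the `n` in `(u, v]` such that all prime factors of all the `a i * n + b i` are larger than `X ^ (1/t)` -/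
noncomputable def good {k : ℕ} (t X : ℕ) (a b : Fin k → ℕ) (u v : ℕ) : Finset ℕ :=
  (Ioc u v).filter (fun n => ∀ i, ∀ p : ℕ, p.Prime → p ∣ a i * n + b i → (X : ℝ) ^ (1 / (t : ℝ)) < p)

theorem div_mod {p a b n : ℕ} : p ∣ a * (n % p) + b ↔ p ∣ a * n + b := by
  have h : a * n + b ≡ a * (n % p) + b [MOD p] :=
    (Nat.ModEq.mul_left a (Nat.mod_modEq n p).symm).add_right b
  exact (h.dvd_iff (dvd_refl p)).symm

theorem mem_Z {k : ℕ} (a b : Fin k → ℕ) {p : ℕ} (hp : 0 < p) (n : ℕ) : n % p ∈ Z a b p ↔ ∃ i, p ∣ a i * n + b i := by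
  unfold Z
  rw [mem_filter, mem_range]
  constructor
  · rintro ⟨_, i, hi⟩
    exact ⟨i, div_mod.1 hi⟩
  · rintro ⟨i, hi⟩
    exact ⟨Nat.mod_lt _ hp, i, div_mod.2 hi⟩

theorem sys {k : ℕ} {a b : Fin k → ℕ} (h : Admissible a b) : SysZ k (Z a b) := by
  classical
  constructor
  · intro p hp
    have h1 : Z a b p ⊆ (univ : Finset (Fin k)).biUnion (fun i => (range p).filter (fun n => p ∣ a i * n + b i)) := by
      intro n hn
      unfold Z at hn
      rw [mem_filter] at hn
      obtain ⟨h1, i, hi⟩ := hn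
      rw [mem_biUnion]
      exact ⟨i, mem_univ _, mem_filter.2 ⟨h1, hi⟩⟩
    refine (card_le_card h1).trans (card_biUnion_le.trans ?_)
    calc _ ≤ ∑ _i : Fin k, 1 := by
          apply sum_le_sum
          intro i _
          rw [card_le_one]
          intro n hn m hm
          rw [mem_filter, mem_range] at hn hm
          have hpa : ¬ p ∣ a i := by
            intro hpa
            have h2 : p ∣ b i := (Nat.dvd_add_right (hpa.mul_right n)).1 hn.2
            obtain ⟨n₀, hn₀⟩ := h.2 p hp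
            exact hn₀ i (dvd_add (hpa.mul_right _) h2)
          have h3 : a i * n + b i ≡ a i * m + b i [MOD p] :=
            ((Nat.modEq_zero_iff_dvd).2 hn.2).trans ((Nat.modEq_zero_iff_dvd).2 hm.2).symm
          have h4 : a i * n ≡ a i * m [MOD p] := Nat.ModEq.add_right_cancel' _ h3
          have h5 : n ≡ m [MOD p] := Nat.ModEq.cancel_left_of_coprime ((Nat.Prime.coprime_iff_not_dvd hp).2 hpa) h4
          exact h5.eq_of_lt_of_lt hn.1 hm.1
      _ = k := by simp
  · intro p hp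
    obtain ⟨n, hn⟩ := h.2 p hp
    have h1 : Z a b p ⊂ range p := by
      refine ⟨filter_subset _ _, fun hsub => ?_⟩
      have h2 := hsub (mem_range.2 (Nat.mod_lt n hp.pos))
      rw [mem_Z a b hp.pos] at h2
      obtain ⟨i, hi⟩ := h2
      exact hn i hi
    have := card_lt_card h1
    rwa [card_range] at this
  · intro p _ c hc
    unfold Z at hc
    rw [mem_filter, mem_range] at hc
    exact hc.1

theorem good_eq {k : ℕ} (t X : ℕ) (a b : Fin k → ℕ) (u v : ℕ) : good t X a b u v = IS t X u v (Z a b) := by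
  classical
  unfold good IS
  apply filter_congr
  intro n _
  constructor
  · intro h q hq hqX hmem
    rw [mem_Z a b hq.pos] at hmem
    obtain ⟨i, hi⟩ := hmem
    exact absurd (h i q hq hi) (not_lt.2 hqX)
  · intro h i p hp hpd
    by_contra hcon
    push Not at hcon
    exact h p hp hcon ((mem_Z a b hp.pos n).2 ⟨i, hpd⟩)

theorem dens_eq {k : ℕ} (a b : Fin k → ℕ) (X : ℕ) : dens a b X = VV (Z a b) 0 X := rfl

/-- **Uniform almost prime k-tuplets in narrow progressions.** For every `k ≥ 1` there are `t ≥ 1` and `c > 0` such that, with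
`P = a_1 ⋯ a_k`:

(1) for every `θ > 0` there is `γ` such that for EVERY admissible set of forms, all `X ≥ γ P ^ t` and all windows `(u, v]` in `[0, X]`
with `v - u ≥ θ X` there are at least `c (v - u) dens` integers `n` in the window such that all prime factors of all the numbers
`a_i n + b_i` are larger than `X ^ (1/t)` (so larger than `P`), and `dens ≥ c / log ^ k X`;

(2) for all `L`, `θ`, `δ > 0` there are `γ` and `D` such that (in the same situation) every subset of relative density `δ` of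
these `n` contains an arithmetic progression of length `L` with difference at most `log ^ D X`;

(3) for all `L`, `m`, `θ > 0` there are `γ` and `D` such that for every colouring of the integers in `m` colours there are exponents
`s_1, …, s_k ≤ 3 t` and a progression of length `L`, in the window, of one colour and with difference at most `log ^ D X`, of
integers `n` such that each `a_i n + b_i` is a product of exactly `s_i` primes, all larger than `X ^ (1/t)`. -/
theorem result (k : ℕ) (hk : 1 ≤ k) : ∃ t : ℕ, 1 ≤ t ∧ ∃ c : ℝ, 0 < c ∧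
    (∀ θ : ℝ, 0 < θ → ∃ γ : ℕ, ∀ a b : Fin k → ℕ, Admissible a b → ∀ X : ℕ, γ * (∏ i, a i) ^ t ≤ X → ∀ u v : ℕ, v ≤ X →
      θ * X ≤ (v : ℝ) - u →
      ((∏ i, a i : ℕ) : ℝ) ≤ (X : ℝ) ^ (1 / (t : ℝ)) ∧ c / Real.log X ^ k ≤ dens a b X ∧
      c * (((v : ℝ) - u) * dens a b X) ≤ ((good t X a b u v).card : ℝ)) ∧
    (∀ (L : ℕ) (θ δ : ℝ), 0 < θ → 0 < δ → ∃ γ D : ℕ, ∀ a b : Fin k → ℕ, Admissible a b → ∀ X : ℕ, γ * (∏ i, a i) ^ t ≤ X →
      ∀ u v : ℕ, v ≤ X → θ * X ≤ (v : ℝ) - u → ∀ S ⊆ good t X a b u v, δ * ((good t X a b u v).card : ℝ) ≤ S.card →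
        ∃ n d : ℕ, 1 ≤ d ∧ (d : ℝ) ≤ Real.log X ^ D ∧ ∀ j < L, n + j * d ∈ S) ∧
    (∀ (L m : ℕ) (θ : ℝ), 0 < θ → 1 ≤ m → ∃ γ D : ℕ, ∀ a b : Fin k → ℕ, Admissible a b → ∀ X : ℕ, γ * (∏ i, a i) ^ t ≤ X →
      ∀ u v : ℕ, v ≤ X → θ * X ≤ (v : ℝ) - u → ∀ col : ℕ → Fin m,
        ∃ (s : Fin k → ℕ) (κ : Fin m) (n d : ℕ), (∀ i, 1 ≤ s i ∧ s i ≤ 3 * t) ∧ 1 ≤ d ∧ (d : ℝ) ≤ Real.log X ^ D ∧
          ∀ j < L, u < n + j * d ∧ n + j * d ≤ v ∧ col (n + j * d) = κ ∧
            ∀ i, (a i * (n + j * d) + b i).primeFactorsList.length = s i ∧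
              ∀ p : ℕ, p.Prime → p ∣ a i * (n + j * d) + b i → (X : ℝ) ^ (1 / (t : ℝ)) < p) := by
  classical
  obtain ⟨t, ht, c, hc, h1, h2, h3⟩ := types k hk
  obtain ⟨c', hc', hlow⟩ := VZ_low k hk
  have ht0 : (0 : ℝ) < t := by exact_mod_cast ht
  have hP1 : ∀ a b : Fin k → ℕ, Admissible a b → 1 ≤ ∏ i, a i := fun a b h => by
    apply Nat.one_le_iff_ne_zero.2
    apply prod_ne_zero_iff.2
    intro i _
    have := h.1 i
    omega
  have hroot : ∀ P X : ℕ, P ^ t ≤ X → (P : ℝ) ≤ (X : ℝ) ^ (1 / (t : ℝ)) := by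
    intro P X h
    calc (P : ℝ) = ((P : ℝ) ^ t) ^ (1 / (t : ℝ)) := by
          rw [← Real.rpow_natCast, ← Real.rpow_mul (by positivity), mul_one_div_cancel ht0.ne', Real.rpow_one]
      _ ≤ _ := Real.rpow_le_rpow (by positivity) (by exact_mod_cast h) (by positivity)
  have hbig : ∀ γ X₀ : ℕ, max X₀ 2 ≤ γ → ∀ a b : Fin k → ℕ, Admissible a b → ∀ X : ℕ, γ * (∏ i, a i) ^ t ≤ X →
      X₀ ≤ X ∧ 2 ≤ X ∧ (∏ i, a i) ^ t ≤ X := by
    intro γ X₀ hγ a b hab X hX
    have hp := Nat.one_le_pow t _ (hP1 a b hab)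
    have e1 : γ * 1 ≤ γ * (∏ i, a i) ^ t := Nat.mul_le_mul_left _ hp
    have e2 : 1 * (∏ i, a i) ^ t ≤ γ * (∏ i, a i) ^ t := Nat.mul_le_mul_right _ (by omega)
    refine ⟨by omega, by omega, by omega⟩
  refine ⟨t, ht, min c c', lt_min hc hc', ?_, ?_, ?_⟩
  · intro θ hθ
    obtain ⟨X₀, hX₀⟩ := h1 θ hθ
    refine ⟨max X₀ 2, fun a b hab X hX u v hv huv => ?_⟩
    obtain ⟨g1, g2, g3⟩ := hbig _ X₀ le_rfl a b hab X hX
    have hX1 : (1 : ℝ) < X := by exact_mod_cast g2
    have hlog : 0 < Real.log X := Real.log_pos hX1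
    refine ⟨hroot _ X g3, ?_, ?_⟩
    · rw [dens_eq]
      refine le_trans ?_ (hlow X g2 _ (sys hab))
      exact div_le_div_of_nonneg_right (min_le_right _ _) (by positivity)
    · rw [good_eq, dens_eq]
      refine le_trans ?_ (hX₀ X g1 _ (sys hab) u v huv)
      apply mul_le_mul_of_nonneg_right (min_le_left _ _)
      have : (0 : ℝ) ≤ X := Nat.cast_nonneg _
      exact mul_nonneg (le_trans (by positivity) huv) (Pool.Agent.Q253.Thin.VZ_nonneg (sys hab) 0 X)
  · intro L θ δ hθ hδ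
    obtain ⟨D, X₀, hX₀⟩ := h2 L θ δ hθ hδ
    refine ⟨max X₀ 2, D, fun a b hab X hX u v hv huv S hS hSc => ?_⟩
    obtain ⟨g1, g2, g3⟩ := hbig _ X₀ le_rfl a b hab X hX
    rw [good_eq] at hS hSc
    exact hX₀ X g1 _ (sys hab) u v (by omega) huv S hS hSc
  · intro L m θ hθ hm
    obtain ⟨K, hK⟩ : ∃ K : Finset ((Fin k → ℕ) × Fin m), K = (Fintype.piFinset (fun _ : Fin k => Icc 1 (3 * t))) ×ˢ univ :=
      ⟨_, rfl⟩
    have hKne : K.Nonempty := by
      rw [hK]
      refine Finset.Nonempty.product ?_ ⟨⟨0, hm⟩, mem_univ _⟩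
      exact ⟨fun _ => 1, Fintype.mem_piFinset.2 fun _ => mem_Icc.2 ⟨le_rfl, by omega⟩⟩
    obtain ⟨D, X₀, hX₀⟩ := h3 L K.card θ hθ
    refine ⟨max X₀ 2, D, fun a b hab X hX u v hv huv col => ?_⟩
    obtain ⟨g1, g2, g3⟩ := hbig _ X₀ le_rfl a b hab X hX
    have hXr : (2 : ℝ) ≤ X := by exact_mod_cast g2
    have hz1 : (1 : ℝ) < (X : ℝ) ^ (1 / (t : ℝ)) := Real.one_lt_rpow (by linarith) (by positivity)
    have hzt : ((X : ℝ) ^ (1 / (t : ℝ))) ^ t = X := by
      rw [← Real.rpow_natCast, ← Real.rpow_mul (by positivity), one_div_mul_cancel ht0.ne', Real.rpow_one]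
    have hlen : ∀ n ∈ IS t X u v (Z a b), ∀ i, 1 ≤ (a i * n + b i).primeFactorsList.length ∧
        (a i * n + b i).primeFactorsList.length ≤ 3 * t := by
      intro n hn i
      rw [← good_eq] at hn
      unfold good at hn
      rw [mem_filter, mem_Ioc] at hn
      obtain ⟨⟨n1, n2⟩, n3⟩ := hn
      have hai := hab.1 i
      have hle : a i ≤ X := by
        have h4 : a i ∣ ∏ i, a i := dvd_prod_of_mem _ (mem_univ i)
        have h5 : a i ≤ ∏ i, a i := Nat.le_of_dvd (hP1 a b hab) h4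
        have h6 : (∏ i, a i) ≤ (∏ i, a i) ^ t := Nat.le_self_pow (by omega) _
        omega
      have hge : 2 ≤ a i * n + b i := by
        have : 1 * 1 ≤ a i * n := Nat.mul_le_mul (by omega) (by omega)
        omega
      constructor
      · by_contra hcon
        have h4 : (a i * n + b i).primeFactorsList = [] := List.length_eq_zero_iff.1 (by omega)
        rw [Nat.primeFactorsList_eq_nil] at h4
        omega
      · rw [mul_comm 3 t]
        apply length_le (by omega) t 3 hz1 (by rw [hzt]) (by linarith) ?_ (n3 i)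
        have h5 : a i * n + b i ≤ X ^ 3 := by
          have h6 : a i * n ≤ X * X := Nat.mul_le_mul hle (by omega)
          have h7 : X * X + X ≤ X ^ 3 := by
            calc X * X + X ≤ X * X + X * X := by nlinarith
              _ = 2 * (X * X) := by ring
              _ ≤ X * (X * X) := Nat.mul_le_mul_right _ g2
              _ = X ^ 3 := by ring
          omega
        exact_mod_cast h5
    obtain ⟨κ, hκ, n, d, hd1, hd2, h4⟩ := hX₀ X g1 _ (sys hab) u v (by omega) huv ((Fin k → ℕ) × Fin m) K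
      (fun n => (fun i => (a i * n + b i).primeFactorsList.length, col n)) le_rfl hKne (by
        intro n hn
        rw [hK, mem_product, Fintype.mem_piFinset]
        exact ⟨fun i => mem_Icc.2 (hlen n hn i), mem_univ _⟩)
    rw [hK, mem_product, Fintype.mem_piFinset] at hκ
    refine ⟨κ.1, κ.2, n, d, fun i => mem_Icc.1 (hκ.1 i), hd1, hd2, fun j hj => ?_⟩
    obtain ⟨g4, g5⟩ := h4 j hj
    rw [← good_eq] at g4
    unfold good at g4
    rw [mem_filter, mem_Ioc] at g4
    obtain ⟨⟨n1, n2⟩, n3⟩ := g4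
    refine ⟨n1, n2, by rw [← g5], fun i => ⟨by rw [← g5], n3 i⟩⟩

end Pool.Agent.Results.MP_746f10_nt.NarrowProgressions
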