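import Pool.Agent.Q117.CB.Master

/-!
# Narrow progressions of almost prime k-tuplets, uniformly in all admissible sets of linear forms and all intervals

For every `k` there are `κ, c > 0` such that for every admissible set of `k` forms `a_i x + b_i` (`1 ≤ b_i < a_i`) and every interval
`(A, A + H]` with `(A + H + a_1 ⋯ a_k) ^ ε ≤ H`: at least the expected number of the `n` in the interval has all `a_i n + b_i` free of
prime factors `≤ H ^ κ` (so they have at most `R` prime factors); every dense subset of the set of these `n` contains progressions of any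
length with difference `≤ log ^ D H`; in every colouring there is such a progression of one colour along which every form has a
constant number of prime factors. All constants are the same for all admissible sets.
-/

set_option autoImplicit false

namespace Pool.Agent.Results.MP_746f10_nt.UniformProgressions

open Finset Filter
open Pool.Agent.Q117.CB
open Pool.Agent.Q253.Cov (pigeon)
open Pool.Agent.Q253.Thin (SysZ IS)
open Pool.Agent.Y843.HS (Pr VV)

/-- the set of the `k` forms `a_i x + b_i` is admissible -/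
def Admissible {k : ℕ} (a b : Fin k → ℕ) : Prop :=
  (∀ i, 1 ≤ b i ∧ b i < a i) ∧ ∀ p : ℕ, p.Prime → ∃ m : ℤ, ∀ i, ¬ ((p : ℤ) ∣ (a i : ℤ) * m + (b i : ℤ))

/-- the number of the classes `n` modulo `p` for which `p` divides one of the `a_i n + b_i` -/
def rho {k : ℕ} (a b : Fin k → ℕ) (p : ℕ) : ℕ := ((range p).filter (fun n => ∃ i, p ∣ a i * n + b i)).card

/-- the product of the `1 - rho p / p` over the primes `p ≤ H` -/
noncomputable def dens {k : ℕ} (a b : Fin k → ℕ) (H : ℕ) : ℝ :=
  ∏ p ∈ (Icc 1 H).filter Nat.Prime, (1 - (rho a b p : ℝ) / p)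

open Classical in
/-- the `n` of `(A, A + H]` for which no `a_i n + b_i` has a prime factor `≤ H ^ κ` -/
noncomputable def good {k : ℕ} (a b : Fin k → ℕ) (κ : ℝ) (A H : ℕ) : Finset ℕ :=
  (Ioc A (A + H)).filter (fun n => ∀ i, ∀ p : ℕ, p.Prime → p ∣ a i * n + b i → (H : ℝ) ^ κ < p)

/-- the number of the prime factors, with multiplicity -/
def bigOmega (n : ℕ) : ℕ := n.primeFactorsList.length

/-- the classes -/
def Zs {k : ℕ} (a b : Fin k → ℕ) (p : ℕ) : Finset ℕ := (range p).filter (fun n => ∃ i, p ∣ a i * n + b i)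

lemma dvd_mod {k : ℕ} (a b : Fin k → ℕ) (p n : ℕ) (i : Fin k) : p ∣ a i * (n % p) + b i ↔ p ∣ a i * n + b i := by
  have h : a i * (n % p) + b i ≡ a i * n + b i [MOD p] := by
    apply Nat.ModEq.add_right
    apply Nat.ModEq.mul_left
    exact Nat.mod_modEq n p
  exact h.dvd_iff (dvd_refl p)

lemma Zs_sys {k : ℕ} {a b : Fin k → ℕ} (h : Admissible a b) : SysZ k (Zs a b) where
  card := by
    classical
    intro p hp
    have h1 : Zs a b p ⊆ (univ : Finset (Fin k)).biUnion (fun i => (range p).filter (fun n => p ∣ a i * n + b i)) := by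
      intro n hn
      unfold Zs at hn
      rw [mem_filter] at hn
      obtain ⟨h1, i, h2⟩ := hn
      rw [mem_biUnion]
      exact ⟨i, mem_univ _, mem_filter.2 ⟨h1, h2⟩⟩
    have h2 : ∀ i ∈ (univ : Finset (Fin k)), ((range p).filter (fun n => p ∣ a i * n + b i)).card ≤ 1 := by
      intro i _
      rw [card_le_one]
      intro x hx y hy
      rw [mem_filter, mem_range] at hx hy
      obtain ⟨m, hm⟩ := h.2 p hp
      have hpa : ¬ p ∣ a i := by
        intro hd
        have h3 : p ∣ b i := (Nat.dvd_add_right (hd.mul_right x)).1 hx.2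
        apply hm i
        exact dvd_add ((Int.natCast_dvd_natCast.2 hd).mul_right m) (Int.natCast_dvd_natCast.2 h3)
      have h4 : a i * x + b i ≡ a i * y + b i [MOD p] :=
        ((Nat.modEq_zero_iff_dvd.2 hx.2).trans (Nat.modEq_zero_iff_dvd.2 hy.2).symm)
      have h5 : a i * x ≡ a i * y [MOD p] := Nat.ModEq.add_right_cancel' _ h4
      have h6 : x ≡ y [MOD p] :=
        Nat.ModEq.cancel_left_of_coprime (c := a i) (by
          rw [Nat.gcd_comm]
          exact ((Nat.Prime.coprime_iff_not_dvd hp).2 hpa).symm) h5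
      have h7 := h6
      unfold Nat.ModEq at h7
      rwa [Nat.mod_eq_of_lt hx.1, Nat.mod_eq_of_lt hy.1] at h7
    calc (Zs a b p).card ≤ _ := card_le_card h1
      _ ≤ ∑ i : Fin k, ((range p).filter (fun n => p ∣ a i * n + b i)).card := card_biUnion_le
      _ ≤ ∑ _i : Fin k, 1 := sum_le_sum h2
      _ = k := by simp
  loc := by
    intro p hp
    obtain ⟨m, hm⟩ := h.2 p hp
    have hp0 : (0 : ℤ) < p := by exact_mod_cast hp.pos
    have h1 : (Zs a b p) ⊂ range p := by
      unfold Zs
      refine ⟨filter_subset _ _, ?_⟩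
      intro h2
      have h3 : ((m % p).toNat) ∈ range p := by
        rw [mem_range]
        have := Int.emod_lt_of_pos m hp0
        have := Int.emod_nonneg m hp0.ne'
        omega
      obtain ⟨i, hi⟩ := (mem_filter.1 (h2 h3)).2
      apply hm i
      have h4 : ((p : ℕ) : ℤ) ∣ (a i : ℤ) * (((m % p).toNat : ℕ) : ℤ) + b i := by exact_mod_cast Int.natCast_dvd_natCast.2 hi
      rw [Int.toNat_of_nonneg (Int.emod_nonneg m hp0.ne')] at h4
      have h5 : (a i : ℤ) * (m % p) + b i ≡ (a i : ℤ) * m + b i [ZMOD p] := by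
        apply Int.ModEq.add_right
        apply Int.ModEq.mul_left
        exact Int.mod_modEq _ _
      exact (Int.ModEq.dvd_iff h5).1 h4
    have := card_lt_card h1
    rwa [card_range] at this
  lt := fun _ _ _ hc => mem_range.1 (mem_filter.1 hc).1

lemma dens_eq {k : ℕ} (a b : Fin k → ℕ) (H : ℕ) : dens a b H = VV (Zs a b) 0 H := by
  unfold dens VV Pr
  have h : (Icc 1 H).filter Nat.Prime = (Ioc 0 H).filter Nat.Prime := by
    ext p
    simp only [mem_filter, mem_Icc, mem_Ioc]
    constructor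
    · rintro ⟨⟨h1, h2⟩, h3⟩
      exact ⟨⟨by omega, h2⟩, h3⟩
    · rintro ⟨⟨h1, h2⟩, h3⟩
      exact ⟨⟨by omega, h2⟩, h3⟩
  rw [h]
  rfl

lemma good_eq {k : ℕ} (a b : Fin k → ℕ) (t A H : ℕ) :
    good a b (1 / (t : ℝ)) A H = IS t H A (A + H) (Zs a b) := by
  classical
  ext n
  unfold good IS
  rw [mem_filter, mem_filter]
  refine and_congr_right fun _ => ?_
  constructor
  · intro h q hq hqH hmem
    unfold Zs at hmem
    rw [mem_filter] at hmem
    obtain ⟨i, hi⟩ := hmem.2
    have := h i q hq ((dvd_mod a b q n i).1 hi)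
    linarith
  · intro h i p hp hpd
    by_contra hcon
    push Not at hcon
    apply h p hp hcon
    unfold Zs
    rw [mem_filter, mem_range]
    exact ⟨Nat.mod_lt _ hp.pos, i, (dvd_mod a b p n i).2 hpd⟩

/-- **Narrow progressions of almost prime k-tuplets, uniformly in all admissible sets of forms and all intervals.** For every `k ≥ 1`
there are `κ, c > 0` such that for all `L`, `C ≥ 1`, `ε > 0` and `η > 0` there are `R`, `D` and `H₀` such that for EVERY admissible set of
`k` forms `a_i x + b_i` and all `A` and `H ≥ H₀` with `A + H + a_1 ⋯ a_k ≤ H ^ (1/ε)`: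

(1) there are at least `c H dens H` integers `n` in `(A, A + H]` for which no `a_i n + b_i` has a prime factor `≤ H ^ κ`; for these `n` all
`a_i n + b_i` have at most `R` prime factors; `dens H ≥ c / log ^ k H`;

(2) every subset of the set of these `n` of relative density at least `η` contains a progression of `L` terms with difference
`1 ≤ d ≤ log ^ D H`;

(3) for every colouring of the integers with `C` colours there are numbers `s_1, ..., s_k ≤ R` and a progression of `L` such `n` of one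
colour, with difference `1 ≤ d ≤ log ^ D H`, along which `a_i n + b_i` has exactly `s_i` prime factors, for every `i`. -/
theorem result : ∀ k : ℕ, 1 ≤ k → ∃ κ c : ℝ, 0 < κ ∧ 0 < c ∧ ∀ (L C : ℕ) (ε η : ℝ), 1 ≤ C → 0 < ε → 0 < η →
    ∃ R D H₀ : ℕ, ∀ a b : Fin k → ℕ, Admissible a b → ∀ A H : ℕ, H₀ ≤ H →
      (A + H + ((∏ i, a i : ℕ) : ℝ)) ≤ (H : ℝ) ^ (1 / ε) →
      c * (H * dens a b H) ≤ ((good a b κ A H).card : ℝ) ∧
      (∀ n ∈ good a b κ A H, ∀ i, bigOmega (a i * n + b i) ≤ R) ∧
      c / Real.log H ^ k ≤ dens a b H ∧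
      (∀ S ⊆ good a b κ A H, η * ((good a b κ A H).card : ℝ) ≤ S.card →
        ∃ m d : ℕ, 1 ≤ d ∧ (d : ℝ) ≤ Real.log H ^ D ∧ ∀ j < L, m + j * d ∈ S) ∧
      (∀ col : ℕ → Fin C, ∃ s : Fin k → ℕ, (∀ i, s i ≤ R) ∧ ∃ i₀ : Fin C, ∃ m d : ℕ, 1 ≤ d ∧ (d : ℝ) ≤ Real.log H ^ D ∧
        ∀ j < L, m + j * d ∈ good a b κ A H ∧ col (m + j * d) = i₀ ∧ ∀ i, bigOmega (a i * (m + j * d) + b i) = s i) := by
  classical
  intro k hk
  obtain ⟨t, ht, c, hc, HM⟩ := master k hk
  have ht0 : (0 : ℝ) < t := by exact_mod_cast ht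
  refine ⟨1 / t, c, by positivity, hc, ?_⟩
  intro L C ε η hC hε hη
  obtain ⟨R, hR⟩ : ∃ R, R = ⌈2 / ε * t⌉₊ := ⟨_, rfl⟩
  have hRr : 2 / ε * t ≤ R := by rw [hR]; exact Nat.le_ceil _
  -- the number of the types and colours
  obtain ⟨K, hKdef⟩ : ∃ K : Finset ((Fin k → ℕ) × Fin C), K = (Fintype.piFinset (fun _ : Fin k => range (R + 1))) ×ˢ univ := ⟨_, rfl⟩
  have hKne : K.Nonempty := by
    refine ⟨(fun _ => 0, ⟨0, hC⟩), ?_⟩
    rw [hKdef, mem_product, Fintype.mem_piFinset]
    exact ⟨fun _ => mem_range.2 (Nat.succ_pos _), mem_univ _⟩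
  have hKc : (0 : ℝ) < K.card := by exact_mod_cast hKne.card_pos
  obtain ⟨η', hη'⟩ : ∃ η' : ℝ, η' = min η (1 / K.card) := ⟨_, rfl⟩
  have hη0 : 0 < η' := by rw [hη']; positivity
  have hη1 : η' ≤ η := by rw [hη']; exact min_le_left _ _
  have hη2 : η' ≤ 1 / K.card := by rw [hη']; exact min_le_right _ _
  obtain ⟨D, H₀, HM⟩ := HM L η' hη0
  refine ⟨R, D, max H₀ 2, ?_⟩
  intro a b hab A H hH hsize
  have hHH : H₀ ≤ H := (le_max_left _ _).trans hH
  have hH2 : 2 ≤ H := (le_max_right _ _).trans hH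
  have hHr : (2 : ℝ) ≤ H := by exact_mod_cast hH2
  obtain ⟨h1, h2, h3⟩ := HM H hHH (Zs a b) (Zs_sys hab) A
  rw [← good_eq] at h1 h3
  -- the number of the prime factors
  have hom : ∀ n ∈ good a b (1 / (t : ℝ)) A H, ∀ i, bigOmega (a i * n + b i) ≤ R := by
    intro n hn i
    unfold good at hn
    rw [mem_filter, mem_Ioc] at hn
    obtain ⟨⟨n1, n2⟩, n3⟩ := hn
    unfold bigOmega
    have hbi := (hab.1 i)
    have hprod : a i ≤ ∏ j, a j := by
      apply Nat.le_of_dvd
      · apply prod_pos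
        intro j _
        have := hab.1 j
        omega
      · exact dvd_prod_of_mem _ (mem_univ i)
    refine omega_le (M := 2 / ε) hH2 ht0 (by omega) ?_ (fun q hq hqd => (n3 i q hq hqd).le) (by linarith)
    have h4 : ((a i * n + b i : ℕ) : ℝ) ≤ (A + H + ((∏ j, a j : ℕ) : ℝ)) ^ 2 := by
      have h5 : a i * n + b i ≤ (A + H + ∏ j, a j) ^ 2 := by
        obtain ⟨P, hP⟩ : ∃ P, P = ∏ j, a j := ⟨_, rfl⟩
        rw [← hP] at hprod ⊢
        calc a i * n + b i ≤ P * (A + H) + P := by
              have : a i * n ≤ P * (A + H) := Nat.mul_le_mul hprod n2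
              omega
          _ ≤ (A + H + P) ^ 2 := by
              have hH1 : 1 ≤ A + H := by omega
              nlinarith
      exact_mod_cast h5
    refine h4.trans ?_
    calc (A + H + ((∏ j, a j : ℕ) : ℝ)) ^ 2 ≤ ((H : ℝ) ^ (1 / ε)) ^ 2 := pow_le_pow_left₀ (by positivity) hsize 2
      _ = (H : ℝ) ^ (2 / ε) := by
          rw [← Real.rpow_natCast, ← Real.rpow_mul (by linarith)]
          congr 1
          push_cast
          ring
  refine ⟨by rw [dens_eq]; exact h1, hom, by rw [dens_eq]; exact h2, ?_, ?_⟩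
  · intro S hS hSc
    exact h3 S hS ((mul_le_mul_of_nonneg_right hη1 (Nat.cast_nonneg _)).trans hSc)
  · intro col
    obtain ⟨⟨s, i₀⟩, hK, hcard⟩ := pigeon (good a b (1 / (t : ℝ)) A H) K
      (fun n => (fun i => bigOmega (a i * n + b i), col n)) (by
        intro n hn
        rw [hKdef, mem_product, Fintype.mem_piFinset]
        exact ⟨fun i => mem_range.2 (Nat.lt_succ_of_le (hom n hn i)), mem_univ _⟩) hKne
    rw [hKdef, mem_product, Fintype.mem_piFinset] at hK
    obtain ⟨m, d, hd1, hd2, hd3⟩ := h3 _ (filter_subset _ _)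
      ((mul_le_mul_of_nonneg_right hη2 (Nat.cast_nonneg _)).trans hcard)
    refine ⟨s, fun i => Nat.lt_succ_iff.1 (mem_range.1 (hK.1 i)), i₀, m, d, hd1, hd2, fun j hj => ?_⟩
    have h4 := hd3 j hj
    rw [mem_filter] at h4
    obtain ⟨h5, h6⟩ := h4
    rw [Prod.mk.injEq] at h6
    exact ⟨h5, h6.2, fun i => congrFun h6.1 i⟩

end Pool.Agent.Results.MP_746f10_nt.UniformProgressions
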